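import Mathlib

/-!
# Good involutions of connected noninvolutory quandles

A connected noninvolutory quandle can have two different good involutions. The example has `24`
elements. It is a conjugacy class `X` of the Weyl group `W(D₄)` of order `192`, that is, of the group of
signed permutation matrices of size four with an even number of signs: the class of the matrix of the
cycle `(1 2 3 4)`. The class `X` generates `W(D₄)`, it is closed under `x ↦ x⁻¹` and under `x ↦ -x`, and
`x ^ 2` is not central. The two good involutions are `x ↦ x⁻¹` and `x ↦ -x⁻¹`. In the file the
quandle is given by its multiplication table, with the elements of `X` numbered `0, …, 23`.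
-/

universe u

namespace Pool.Agent.Results.MP_f5f603_al.TwoGoodInvolutions

/-- `(R, op)` is a quandle: `x * x = x`, all right translations `x ↦ x * y` are bijective, and
`(x * y) * z = (x * z) * (y * z)`. -/
structure IsQuandle {R : Type u} (op : R → R → R) : Prop where
  idem : ∀ x, op x x = x
  bij : ∀ y, Function.Bijective (fun x => op x y)
  dist : ∀ x y z, op (op x y) z = op (op x z) (op y z)

/-- The group generated by the right translations `s_y : x ↦ x * y` acts transitively. -/
def Connected {R : Type u} (op : R → R → R) : Prop :=
  ∀ a b : R, ∃ g ∈ Subgroup.closure {s : Equiv.Perm R | ∃ y, ∀ x, s x = op x y}, g a = b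

/-- `(x * y) * y = x` for all `x`, `y`. -/
def Involutory {R : Type u} (op : R → R → R) : Prop := ∀ x y, op (op x y) y = x

/-- `ρ` is a good involution of the quandle `(R, op)`: `ρ (ρ x) = x`, `ρ (x * y) = ρ x * y`, and
`s_{ρ y}` is the inverse of `s_y`, that is, `(x * ρ y) * y = x` and `(x * y) * ρ y = x`. -/
structure IsGoodInvolution {R : Type u} (op : R → R → R) (ρ : R → R) : Prop where
  invol : ∀ x, ρ (ρ x) = x
  hom : ∀ x y, ρ (op x y) = op (ρ x) y
  inv_left : ∀ x y, op (op x (ρ y)) y = x
  inv_right : ∀ x y, op (op x y) (ρ y) = x

/-- The multiplication table: the entry in row `i` and column `j` is the digit number `24 i + j` of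
this number in base `32`. -/
def tab : ℕ :=
  674552777845617813913884922516632989519463315078599587800043646916777802541691644383373909947775564243173481306185500090454744098400200137049513851764628967086649744995223411877097671683263849000712097389858603385821209804564076150801794506217050426078607684142736258057008986071864916962683564613551052970002791726272188872976797476975491181411427795576942130236250827912839269552273571907336618435471135746943773388643468652195405963311752505049613303047285532529963446537538041604080499563694345168836489727250905568566439959733461391252648028938525828592743543835682791027199947068589501423417869476051818465503415303337867920665571773779504957858193936286671379538900261528886219050336713094428269779684736147172277729858995714106236492420315386516370640153184964711614425985723996860288367975413397580483272969080913831658015099436147421269967207370240407404800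

/-- The quandle operation. -/
def op (i j : Fin 24) : Fin 24 := Fin.ofNat 24 ((tab >>> (5 * (24 * i.val + j.val))) % 32)

/-- The good involution `x ↦ x⁻¹`. -/
def ρ₁ (i : Fin 24) : Fin 24 := Fin.ofNat 24 ((111252211087643879309612984464301194 >>> (5 * i.val)) % 32)

/-- The good involution `x ↦ -x⁻¹`. -/
def ρ₂ (i : Fin 24) : Fin 24 := Fin.ofNat 24 ((16151265090671702729345481330764343 >>> (5 * i.val)) % 32)

theorem dist : ∀ x y z, op (op x y) z = op (op x z) (op y z) := by decide +kernel

theorem idem : ∀ x, op x x = x := by decide +kernel

theorem good₁ : IsGoodInvolution op ρ₁ where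
  invol := by decide +kernel
  hom := by decide +kernel
  inv_left := by decide +kernel
  inv_right := by decide +kernel

theorem good₂ : IsGoodInvolution op ρ₂ where
  invol := by decide +kernel
  hom := by decide +kernel
  inv_left := by decide +kernel
  inv_right := by decide +kernel

theorem quandle : IsQuandle op where
  idem := idem
  bij := fun y => ⟨fun a b h => by
      have h' : op a y = op b y := h
      rw [← good₁.inv_right a y, h', good₁.inv_right b y],
    fun b => ⟨op b (ρ₁ y), good₁.inv_left b y⟩⟩
  dist := dist

/-- The right translation `s_y` as a permutation. -/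
def s (y : Fin 24) : Equiv.Perm (Fin 24) where
  toFun x := op x y
  invFun x := op x (ρ₁ y)
  left_inv x := good₁.inv_right x y
  right_inv x := good₁.inv_left x y

theorem step : ∀ b : Fin 24, b ≠ 0 → ∃ c : Fin 24, c < b ∧ ∃ y, op c y = b := by decide +kernel

theorem reach (b : Fin 24) :
    ∃ g ∈ Subgroup.closure {s : Equiv.Perm (Fin 24) | ∃ y, ∀ x, s x = op x y}, g 0 = b := by
  induction b using WellFoundedLT.induction with
  | ind b ih =>
    by_cases hb : b = 0
    · exact ⟨1, Subgroup.one_mem _, by rw [hb]; rfl⟩
    · obtain ⟨c, hc, y, hy⟩ := step b hb
      obtain ⟨g, hg, hg'⟩ := ih c hc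
      refine ⟨s y * g, Subgroup.mul_mem _ (Subgroup.subset_closure ⟨y, fun x => rfl⟩) hg, ?_⟩
      rw [Equiv.Perm.mul_apply, hg']
      exact hy

theorem connected : Connected op := by
  intro a b
  obtain ⟨g, hg, hg'⟩ := reach a
  obtain ⟨h, hh, hh'⟩ := reach b
  refine ⟨h * g⁻¹, Subgroup.mul_mem _ hh (Subgroup.inv_mem _ hg), ?_⟩
  rw [Equiv.Perm.mul_apply, Equiv.Perm.inv_eq_iff_eq.2 hg'.symm, hh']

/-- **There is a connected noninvolutory quandle** (with `24` elements) **that has two different good
involutions.** -/
theorem result : ∃ (R : Type) (op : R → R → R), Nat.card R = 24 ∧ IsQuandle op ∧ Connected op ∧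
    ¬ Involutory op ∧ ∃ ρ₁ ρ₂ : R → R, ρ₁ ≠ ρ₂ ∧ IsGoodInvolution op ρ₁ ∧
      IsGoodInvolution op ρ₂ :=
  ⟨Fin 24, op, by simp, quandle, connected, by unfold Involutory; decide +kernel, ρ₁, ρ₂,
    fun h => absurd (congrFun h 0) (by decide +kernel), good₁, good₂⟩

end Pool.Agent.Results.MP_f5f603_al.TwoGoodInvolutions
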